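import Mathlib
import Pool.Agent.H20.RecTransfer
import Pool.Agent.H20.RecLower

set_option autoImplicit false

namespace Pool.Agent.Results.MP_91bf7f_an.ThreeTestSets

open MeasureTheory Set

/-- The Lebesgue measurable sets `T 0, …, T (n-1)` reconstruct an interval: two bounded
nondegenerate closed intervals `[a,b]`, `[c,d]` with the same measures of the intersections with
all the test sets coincide. -/
def Reconstructs (n : ℕ) (T : Fin n → Set ℝ) : Prop :=
  (∀ i, NullMeasurableSet (T i) volume) ∧
  ∀ a b c d : ℝ, a < b → c < d →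
    (∀ i, volume (Icc a b ∩ T i) = volume (Icc c d ∩ T i)) → Icc a b = Icc c d

lemma lower (n : ℕ) (T : Fin n → Set ℝ) (hT : Reconstructs n T) : 3 ≤ n := by
  by_contra hn
  push Not at hn
  obtain ⟨hmeas, hrec⟩ := hT
  let U : ℕ → Set ℝ := fun i => if h : i < n then toMeasurable volume (T ⟨i, h⟩) else ∅
  have hU : ∀ i, MeasurableSet (U i) := by
    intro i
    simp only [U]
    split_ifs with h
    · exact measurableSet_toMeasurable _ _
    · exact MeasurableSet.empty
  have hUT : ∀ (i : ℕ) (h : i < n) (a b : ℝ),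
      volume (Icc a b ∩ T ⟨i, h⟩) = volume (Icc a b ∩ U i) := by
    intro i h a b
    simp only [U, h, dite_true]
    apply measure_congr
    exact (ae_eq_refl _).inter (hmeas ⟨i, h⟩).toMeasurable_ae_eq.symm
  apply Pool.Agent.H20.RecLower.two_fail (U 0) (U 1) (hU 0) (hU 1)
  intro a b c d hab hcd h0 h1
  have h2 : Icc a b = Icc c d := by
    apply hrec a b c d hab hcd
    rintro ⟨i, hi⟩
    rw [hUT i hi, hUT i hi]
    have hi' : i = 0 ∨ i = 1 := by omega
    rcases hi' with rfl | rfl
    · exact h0
    · exact h1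
  have h3 : a ∈ Icc c d := h2 ▸ left_mem_Icc.mpr hab.le
  have h4 : c ∈ Icc a b := h2 ▸ left_mem_Icc.mpr hcd.le
  exact le_antisymm h4.1 h3.1

/-- **The least number of test sets which reconstruct an interval is `3`.** -/
theorem result : IsLeast {n : ℕ | 1 ≤ n ∧ ∃ T : Fin n → Set ℝ, Reconstructs n T} 3 := by
  constructor
  · refine ⟨by norm_num, Pool.Agent.H20.Rec.TR, fun i =>
      (Pool.Agent.H20.Rec.measurableSet_TR i).nullMeasurableSet, ?_⟩
    intro a b c d hab hcd h
    obtain ⟨h1, h2⟩ := Pool.Agent.H20.Rec.three_suffice hab hcd h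
    rw [h1, h2]
  · rintro n ⟨_, T, hT⟩
    exact lower n T hT

end Pool.Agent.Results.MP_91bf7f_an.ThreeTestSets
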